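import Pool.Agent.H868R3.TBMain

/-!
A variety of type B which is not a rigid factor.

The example glues two pairs of points of `G_m × 𝔸¹`: `Y` is obtained by identifying `(1,0)` with
`(1,1)` and `(-1,0)` with `(-1,1)`, while `Z` is obtained by identifying `(1,0)` with `(1,1)` and
`(-1,0)` with `(-1,2)`.
-/

namespace Pool.Agent.Results.MP_340332_ag.TypeBNotRigid

universe u

/-- For every algebraically closed field `K` of characteristic zero there is an irreducible
affine variety `Y = Spec A` over `K` which is of type B and is not a rigid factor. -/
theorem result : ∀ (K : Type u) [Field K] [IsAlgClosed K] [CharZero K],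
    ∃ (A : Type u) (_ : CommRing A) (_ : Algebra K A),
      IsDomain A ∧ Algebra.FiniteType K A ∧
      Pool.Agent.H868R3.IsTypeB K A ∧ ¬ Pool.Agent.H868R3.IsRigidFactor K A := by
  intro K _ _ _
  exact Pool.Agent.H868R3.main K

end Pool.Agent.Results.MP_340332_ag.TypeBNotRigid
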